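import Pool.Agent.Helper22.T6.ZM

set_option autoImplicit false

/-!
MP_2f9829_co, all degrees: module TLC (cycles of the tilted law). Adapted from `Helper39/T5/TLC.lean`.
-/

open Finset MeasureTheory Filter Topology

namespace Pool.Agent.Helper22.T6

open Pool.Agent.Helper15.T4 (IsPM PM cov IsMat nsq po)
open Pool.Agent.Helper15.T6

section
variable {d : ℕ} {L : Type} [Fintype L] (w : (Fin d → L) → ℝ) (p q : Fin d)

theorem RW_smul22 (hpq : p ≠ q) (s : ℝ) (x : L → ℝ) :
    RW w p q (s • x) = s ^ (d - 2) • RW w p q x := by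
  classical
  ext a b
  simp only [RW, Matrix.smul_apply, smul_eq_mul, Pi.smul_apply, Finset.mul_sum]
  refine Finset.sum_congr rfl (fun f _ => ?_)
  have hc : ((univ.erase p).erase q).card = d - 2 := by
    rw [Finset.card_erase_of_mem (Finset.mem_erase.2 ⟨hpq.symm, Finset.mem_univ _⟩),
      Finset.card_erase_of_mem (Finset.mem_univ _), Finset.card_univ, Fintype.card_fin]
    omega
  rw [Finset.prod_mul_distrib, Finset.prod_const, hc]
  ring

theorem RW_cont22 : Continuous (fun x : L → ℝ => RW w p q x) := by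
  classical
  refine continuous_matrix (fun a b => ?_)
  simp only [RW]
  refine continuous_finsetSum _ (fun f _ => ?_)
  exact continuous_const.mul (continuous_finsetProd _ fun i _ => continuous_apply (f i))

variable [DecidableEq L]

/-- The product of the traces. -/
noncomputable def PhW {I : Type} [Fintype I] (κ : I → ℕ) (x : L → ℝ) : ℝ :=
  ∏ i, ((RW w p q x) ^ (κ i + 1)).trace

theorem PhW_cont {I : Type} [Fintype I] (κ : I → ℕ) : Continuous (PhW w p q κ) := by
  unfold PhW
  refine continuous_finsetProd _ (fun i _ => ?_)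
  exact Continuous.matrix_trace ((RW_cont22 w p q).pow (κ i + 1))

theorem PhW_hom (hpq : p ≠ q) {I : Type} [Fintype I] (κ : I → ℕ) (s : ℝ) (x : L → ℝ) :
    PhW w p q κ (s • x) = s ^ ((d - 2) * ∑ i, (κ i + 1)) * PhW w p q κ x := by
  unfold PhW
  rw [RW_smul22 w p q hpq]
  simp only [smul_pow, Matrix.trace_smul, smul_eq_mul]
  rw [Finset.prod_mul_distrib, Finset.prod_pow_eq_pow_sum, ← pow_mul]

end

theorem mass_eq22 {n d : ℕ} (W : Finset (Sym2 (HE n d)) → ℝ) (F : Finset (Sym2 (HE n d)))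
    [DecidableEq (Sym2 (HE n d))] :
    mass W F = ∑ M ∈ (PM (univ : Finset (HE n d))).filter (fun M => F ⊆ M), W M := by
  unfold mass
  refine Finset.sum_congr ?_ (fun _ _ => rfl)
  ext M
  simp only [Finset.mem_filter]

theorem st_TLC (hSUMX : ST_SUMX) (hPSIC : ST_PSIC) (hSTRU : ST_STRU) (hXZ : ST_XZ)
    (hMJ : ST_MJ) (hZM : ST_ZM) (hPQ : ST_PQ) (hSOFT : ST_SOFT) : ST_TLC := by
  classical
  intro d hd K I _ _ κ
  have hcard : Fintype.card (Fin K × Fin 2) = 2 * K := by
    rw [Fintype.card_prod, Fintype.card_fin, Fintype.card_fin, mul_comm]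
  set f : ℕ := ∑ i, (κ i + 1) with hf
  let p : Fin d := ⟨0, by omega⟩
  let q : Fin d := ⟨1, by omega⟩
  have hpq : p ≠ q := by
    intro h
    have := congrArg Fin.val h
    simp [p, q] at this
  let w := wJ d (Fin K × Fin 2)
  let P : ((Fin K × Fin 2 → Fin d) → ℝ) → ℝ := fun x => PJ (Fin K × Fin 2) x
  obtain ⟨hmax, htr⟩ := hPQ d hd K
  refine ⟨fun N => GR (fun x => P x ^ (2 * N - f) * PhW w p q κ x) /
    GR (fun x => P x ^ (2 * N)), ?_, ?_⟩
  · have h1 := hSOFT _ d P (qd d ^ K) hmax f f (PhW w p q κ) (∏ i, tau d (κ i) ^ K)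
      (Nat.mul_le_mul_right f (by omega)) (PhW_cont w p q κ)
      (fun s x => by
        rw [PhW_hom w p q hpq, Nat.sub_mul])
      (fun x hx hPx => by
        have h2 : ∀ i, ((RW w p q x) ^ (κ i + 1)).trace = P x ^ (κ i + 1) * tau d (κ i) ^ K :=
          fun i => htr x hx hPx p q hpq (κ i)
        unfold PhW
        rw [Finset.prod_congr rfl fun i _ => h2 i, Finset.prod_mul_distrib,
          Finset.prod_pow_eq_pow_sum, mul_comm])
    have hd0 : (d : ℝ) ≠ 0 := by
      have : 0 < d := by omega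
      positivity
    have h4 := h1.div_const ((d : ℝ) ^ f)
    have h5 : (∏ i, tau d (κ i) ^ K) / (d : ℝ) ^ f = ∏ i, tau d (κ i) ^ K / (d : ℝ) ^ (κ i + 1) := by
      rw [Finset.prod_div_distrib, Finset.prod_pow_eq_pow_sum]
    rw [h5] at h4
    refine h4.congr (fun N => ?_)
    have h6 : (2 * (d : ℝ) * (N : ℝ)) ^ f = (d : ℝ) ^ f * (2 * (N : ℝ)) ^ f := by
      rw [← mul_pow]
      congr 1
      ring
    have h3' : (d : ℝ) ^ f ≠ 0 := pow_ne_zero _ hd0
    rw [h6]
    field_simp
  · refine Filter.Eventually.of_forall (fun N cc hcc => ?_)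
    obtain ⟨hm, _, _, _, _⟩ := hSTRU (2 * N) d I κ cc hcc
    have hsymm : SymW w := (hMJ d _).1 (by rw [hcard]; exact even_two_mul K)
    have hnum : (∑ M ∈ (PM (univ : Finset (HE (2 * N) d))).filter (fun M => EU cc ⊆ M),
        ((Zc M : ℤ) : ℝ) ^ (2 * K)) = GR (fun x => P x ^ (2 * N - f) * PhW w p q κ x) := by
      have h3 := hSUMX d _ w (2 * N) (EU cc) hm
      have h5 : Psi w (EU cc) = fun x => P x ^ (2 * N - f) * PhW w p q κ x := by
        funext x
        rw [hPSIC d _ w hsymm p q hpq (2 * N) I κ cc x hcc, (hMJ d _).2]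
        rfl
      rw [h5] at h3
      rw [← h3]
      refine Finset.sum_congr ?_ fun M _ => ?_
      · ext M
        simp only [Finset.mem_filter]
      · rw [hXZ, hcard]
    have hden := hZM d K (2 * N)
    rw [mass_eq22]
    unfold WK
    rw [← Finset.sum_div, hnum, hden]

end Pool.Agent.Helper22.T6
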