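import Pool.Agent.Helper15.T6.Stmts

set_option autoImplicit false

/-!
MP_2f9829_co, all degrees: modules ZM and RAT. The even moments of `Zc` are Gaussian integrals of the
replica form, and so are the ratios of the moments.
-/

open Finset MeasureTheory Filter Topology

namespace Pool.Agent.Helper22.T6

open Pool.Agent.Helper15.T4 (IsPM PM cov IsMat nsq po)
open Pool.Agent.Helper15.T6

theorem isMat_empty22 {H : Type} [Fintype H] : IsMat (∅ : Finset (Sym2 H)) := by
  refine ⟨fun e he => absurd he (Finset.notMem_empty e),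
    fun e he => absurd he (Finset.notMem_empty e), fun h hh => ?_⟩
  exfalso
  simp only [cov, mem_filter, mem_univ, true_and] at hh
  obtain ⟨e, he, -⟩ := hh
  exact absurd he (Finset.notMem_empty e)

theorem st_ZM (xz : ST_XZ) (mj : ST_MJ) (sumx : ST_SUMX) (psi0 : ST_PSI0) : ST_ZM := by
  classical
  intro d K n
  have hcard : Fintype.card (Fin K × Fin 2) = 2 * K := by
    rw [Fintype.card_prod, Fintype.card_fin, Fintype.card_fin, mul_comm]
  have h1 := sumx d _ (wJ d (Fin K × Fin 2)) n ∅ isMat_empty22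
  rw [Finset.filter_true_of_mem (fun M _ => Finset.empty_subset M)] at h1
  have h2 : (Psi (wJ d (Fin K × Fin 2)) (∅ : Finset (Sym2 (HE n d)))) =
      fun x => PJ (Fin K × Fin 2) x ^ n := by
    funext x
    rw [psi0, (mj d (Fin K × Fin 2)).2 x]
  rw [h2] at h1
  rw [← h1]
  refine Finset.sum_congr rfl fun M _ => ?_
  rw [xz, hcard]

theorem st_RAT (ratg : ST_RATG) (zm : ST_ZM) : ST_RAT := by
  classical
  intro d hd K
  have h0 : ∀ N : ℕ, ((PM (univ : Finset (HE (2 * N) d))).card : ℝ) =
      GR (fun x : (Fin 0 × Fin 2 → Fin d) → ℝ => PJ (Fin 0 × Fin 2) x ^ (2 * N)) := by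
    intro N
    rw [← zm d 0 (2 * N)]
    simp
  have hE : ∀ K' N : ℕ, EZ d K' N =
      GR (fun x : (Fin K' × Fin 2 → Fin d) → ℝ => PJ (Fin K' × Fin 2) x ^ (2 * N)) /
      GR (fun x : (Fin 0 × Fin 2 → Fin d) → ℝ => PJ (Fin 0 × Fin 2) x ^ (2 * N)) := by
    intro K' N
    unfold EZ
    rw [h0 N, zm d K' (2 * N)]
  have h := ratg d hd K
  simp only [hE]
  exact h

end Pool.Agent.Helper22.T6
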